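import Mathlib

set_option autoImplicit false

namespace Pool.Agent.H237R3.Delta

/-- `Fac G n k`: the number `n` is a sum of `k` elements of `G`, repetition allowed. -/
def Fac (G : Set ℕ) (n k : ℕ) : Prop :=
  ∃ m : Multiset ℕ, (∀ a ∈ m, a ∈ G) ∧ m.sum = n ∧ Multiset.card m = k

lemma Fac.zero (G : Set ℕ) : Fac G 0 0 := ⟨0, by simp, by simp, by simp⟩

lemma Fac.cons {G : Set ℕ} {n k a : ℕ} (h : Fac G n k) (ha : a ∈ G) :
    Fac G (n + a) (k + 1) := by
  obtain ⟨m, hm, hs, hc⟩ := h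
  refine ⟨a ::ₘ m, ?_, ?_, ?_⟩
  · intro b hb
    rcases Multiset.mem_cons.1 hb with rfl | hb
    · exact ha
    · exact hm b hb
  · rw [Multiset.sum_cons, hs, add_comm]
  · rw [Multiset.card_cons, hc]

lemma Fac.add {G : Set ℕ} {n k n' k' : ℕ} (h : Fac G n k) (h' : Fac G n' k') :
    Fac G (n + n') (k + k') := by
  obtain ⟨m, hm, hs, hc⟩ := h
  obtain ⟨m', hm', hs', hc'⟩ := h'
  refine ⟨m + m', ?_, ?_, ?_⟩
  · intro b hb
    rcases Multiset.mem_add.1 hb with hb | hb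
    · exact hm b hb
    · exact hm' b hb
  · rw [Multiset.sum_add, hs, hs']
  · rw [Multiset.card_add, hc, hc']

lemma Fac.ind {G : Set ℕ} {motive : ℕ → ℕ → Prop} (h0 : motive 0 0)
    (hc : ∀ n k a, Fac G n k → a ∈ G → motive n k → motive (n + a) (k + 1))
    {n k : ℕ} (h : Fac G n k) : motive n k := by
  obtain ⟨m, hm, rfl, rfl⟩ := h
  induction m using Multiset.induction_on with
  | empty => simpa using h0
  | cons a m ih =>
    have hm' : ∀ b ∈ m, b ∈ G := fun b hb => hm b (Multiset.mem_cons_of_mem hb)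
    have := hc m.sum (Multiset.card m) a ⟨m, hm', rfl, rfl⟩ (hm a (Multiset.mem_cons_self a m))
      (ih hm')
    rw [Multiset.sum_cons, Multiset.card_cons, add_comm a]
    exact this

lemma mem_closure_iff {G : Set ℕ} {n : ℕ} :
    n ∈ AddSubmonoid.closure G ↔ ∃ k, Fac G n k := by
  constructor
  · intro h
    induction h using AddSubmonoid.closure_induction with
    | mem x hx => exact ⟨1, by simpa using (Fac.zero G).cons hx⟩
    | zero => exact ⟨0, Fac.zero G⟩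
    | add x y _ _ hx hy =>
      obtain ⟨k, hk⟩ := hx
      obtain ⟨l, hl⟩ := hy
      exact ⟨k + l, hk.add hl⟩
  · rintro ⟨k, m, hm, rfl, -⟩
    exact AddSubmonoid.multiset_sum_mem _ _ (fun a ha => AddSubmonoid.subset_closure (hm a ha))

lemma atom_iff {G : Set ℕ} (h0 : ∀ g ∈ G, g ≠ 0)
    (hirr : ∀ g ∈ G, ∀ b ∈ AddSubmonoid.closure G, ∀ c ∈ AddSubmonoid.closure G,
      b + c = g → b = 0 ∨ c = 0) (a : ℕ) :
    (a ∈ AddSubmonoid.closure G ∧ a ≠ 0 ∧ ∀ b ∈ AddSubmonoid.closure G,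
      ∀ c ∈ AddSubmonoid.closure G, b + c = a → b = 0 ∨ c = 0) ↔ a ∈ G := by
  constructor
  · rintro ⟨ha, ha0, hab⟩
    obtain ⟨k, m, hm, rfl, hk⟩ := mem_closure_iff.1 ha
    induction m using Multiset.induction_on with
    | empty => simp at ha0
    | cons g m _ =>
      have hg : g ∈ G := hm g (Multiset.mem_cons_self g m)
      have hm' : ∀ b ∈ m, b ∈ G := fun b hb => hm b (Multiset.mem_cons_of_mem hb)
      have h1 : g ∈ AddSubmonoid.closure G := AddSubmonoid.subset_closure hg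
      have h2 : m.sum ∈ AddSubmonoid.closure G := mem_closure_iff.2 ⟨_, m, hm', rfl, rfl⟩
      rw [Multiset.sum_cons] at hab ⊢
      rcases hab g h1 m.sum h2 rfl with h | h
      · exact absurd h (h0 g hg)
      · rw [h, add_zero]; exact hg
  · intro ha
    exact ⟨AddSubmonoid.subset_closure ha, h0 a ha, hirr a ha⟩

lemma realize {G : Set ℕ} (h0 : ∀ g ∈ G, g ≠ 0)
    (hirr : ∀ g ∈ G, ∀ b ∈ AddSubmonoid.closure G, ∀ c ∈ AddSubmonoid.closure G,
      b + c = g → b = 0 ∨ c = 0)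
    (hfin : ((AddSubmonoid.closure G : Set ℕ)ᶜ).Finite) (D : Set ℕ)
    (h1 : ∀ n k d, 0 < d → Fac G n k → Fac G n (k + d) →
      (∀ j, k < j → j < k + d → ¬ Fac G n j) → d ∈ D)
    (h2 : ∀ d ∈ D, 0 < d ∧ ∃ n k, Fac G n k ∧ Fac G n (k + d) ∧
      ∀ j, k < j → j < k + d → ¬ Fac G n j) :
    ∃ S : AddSubmonoid ℕ, ((S : Set ℕ)ᶜ).Finite ∧
        {d : ℕ | 0 < d ∧ ∃ n ∈ S, ∃ k : ℕ,
          (∃ m : Multiset ℕ,
              (∀ a ∈ m, a ∈ S ∧ a ≠ 0 ∧ ∀ b ∈ S, ∀ c ∈ S, b + c = a → b = 0 ∨ c = 0) ∧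
              m.sum = n ∧ Multiset.card m = k) ∧
          (∃ m : Multiset ℕ,
              (∀ a ∈ m, a ∈ S ∧ a ≠ 0 ∧ ∀ b ∈ S, ∀ c ∈ S, b + c = a → b = 0 ∨ c = 0) ∧
              m.sum = n ∧ Multiset.card m = k + d) ∧
          ∀ j : ℕ, k < j → j < k + d →
            ¬ ∃ m : Multiset ℕ,
              (∀ a ∈ m, a ∈ S ∧ a ≠ 0 ∧ ∀ b ∈ S, ∀ c ∈ S, b + c = a → b = 0 ∨ c = 0) ∧
              m.sum = n ∧ Multiset.card m = j} = D := by
  refine ⟨AddSubmonoid.closure G, hfin, ?_⟩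
  have key : ∀ n j, (∃ m : Multiset ℕ,
              (∀ a ∈ m, a ∈ AddSubmonoid.closure G ∧ a ≠ 0 ∧ ∀ b ∈ AddSubmonoid.closure G,
                ∀ c ∈ AddSubmonoid.closure G, b + c = a → b = 0 ∨ c = 0) ∧
              m.sum = n ∧ Multiset.card m = j) ↔ Fac G n j := by
    intro n j
    unfold Fac
    simp only [atom_iff h0 hirr]
  simp only [key]
  ext d
  constructor
  · rintro ⟨hd, n, -, k, hk, hkd, hno⟩
    exact h1 n k d hd hk hkd hno
  · intro hd
    obtain ⟨hd0, n, k, hk, hkd, hno⟩ := h2 d hd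
    exact ⟨hd0, n, mem_closure_iff.2 ⟨k, hk⟩, k, hk, hkd, hno⟩

/-- If two consecutive integers lie in a submonoid, its complement is finite. -/
lemma cofinite_of_consec {S : AddSubmonoid ℕ} {a : ℕ} (h1 : a ∈ S) (h2 : a + 1 ∈ S) :
    ((S : Set ℕ)ᶜ).Finite := by
  refine (Set.finite_lt_nat (a * a + 1)).subset ?_
  intro n hn
  simp only [Set.mem_compl_iff, SetLike.mem_coe] at hn
  simp only [Set.mem_setOf_eq]
  by_contra hlt
  apply hn
  rcases Nat.eq_zero_or_pos a with rfl | ha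
  · have : n • (1 : ℕ) ∈ S := S.nsmul_mem (by simpa using h2) n
    simpa using this
  have h3 : n = (n / a - n % a) • a + (n % a) • (a + 1) := by
    have h4 : n % a < a := Nat.mod_lt _ ha
    have h5 : a ≤ n / a := (Nat.le_div_iff_mul_le ha).2 (by omega)
    have h6 : a * (n / a) + n % a = n := Nat.div_add_mod n a
    obtain ⟨c, hc⟩ := Nat.exists_eq_add_of_le (show n % a ≤ n / a by omega)
    simp only [smul_eq_mul]
    rw [hc] at h6 ⊢
    rw [Nat.add_sub_cancel_left]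
    nlinarith
  rw [h3]
  exact S.add_mem (S.nsmul_mem h1 _) (S.nsmul_mem h2 _)

end Pool.Agent.H237R3.Delta
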