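import Pool.Agent.H237R3.DeltaPow

set_option autoImplicit false

namespace Pool.Agent.H237R3.Delta

/-- The numerical data of the construction: `δ` the largest distance, `q` the largest label, `ρ`
the scale, and `f s` the distance attached to the label `s`. -/
structure Par (δ q ρ : ℕ) (f : ℕ → ℕ) : Prop where
  hδ : 3 ≤ δ
  hq1 : 1 ≤ q
  hq2 : q < 2 * δ
  hρ : δ * q < ρ
  hf1 : ∀ s, s ≤ q → 2 ≤ f s
  hf2 : ∀ s, s ≤ q → f s ≤ δ
  hf3 : ∀ s, s ≤ q → s ≤ δ → f s = δ
  hf4 : ∀ s s', s ≤ s' → s' ≤ q → f s' ≤ f s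

/-- the allowed values `a` for the label `s` -/
def Val (δ : ℕ) (f : ℕ → ℕ) (a s : ℕ) : Prop :=
  (1 ≤ a ∧ a < 2 ^ (δ + 1 - f s)) ∨ a ∈ Pw δ

/-- the set `R` -/
def RR (δ q ρ : ℕ) (f : ℕ → ℕ) : Set ℕ := {r | ∃ a s, s ≤ q ∧ Val δ f a s ∧ r = a * ρ + s}

/-- configurations: `k` parts with `a`-sum `A` and label sum `B` -/
inductive Conf (δ q : ℕ) (f : ℕ → ℕ) : ℕ → ℕ → ℕ → Prop
  | base {k A B : ℕ} : Fac (Pw δ) A k → B ≤ k * q → Conf δ q f k A B
  | flex {k A B a s : ℕ} : Conf δ q f k A B → s ≤ q → 1 ≤ a → a < 2 ^ (δ + 1 - f s) →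
      Conf δ q f (k + 1) (A + a) (B + s)

variable {δ q ρ : ℕ} {f : ℕ → ℕ}

lemma Conf.le {k A B : ℕ} (h : Conf δ q f k A B) : k ≤ A ∧ B ≤ k * q := by
  induction h with
  | base h hB => exact ⟨h.pw_le, hB⟩
  | flex _ hs ha _ ih =>
    refine ⟨by omega, ?_⟩
    rw [add_mul, one_mul]
    omega

lemma Conf.pw {k A B b s : ℕ} (h : Conf δ q f k A B) (hb : b ∈ Pw δ) (hs : s ≤ q) :
    Conf δ q f (k + 1) (A + b) (B + s) := by
  induction h with
  | base h hB =>
    refine Conf.base (h.cons hb) ?_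
    rw [add_mul, one_mul]
    omega
  | @flex k A B a s' _ hs' ha ha' ih =>
    have := Conf.flex ih hs' ha ha'
    have e1 : A + a + b = A + b + a := by ring
    have e2 : B + s' + s = B + s + s' := by ring
    rw [e1, e2]
    exact this

lemma Val.pos {a s : ℕ} (h : Val δ f a s) : 1 ≤ a := by
  rcases h with h | ⟨j, -, rfl⟩
  · exact h.1
  · exact Nat.two_pow_pos j

lemma Conf.split {k A B : ℕ} (hδ : 0 < δ) (h : Conf δ q f k A B) (hk : k < A) :
    Conf δ q f (k + 1) A B := by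
  induction h with
  | base h hB =>
    refine Conf.base (h.pw_split hk) ?_
    rw [add_mul, one_mul]
    omega
  | @flex k A B a s h hs ha ha' ih =>
    by_cases hkA : k < A
    · exact Conf.flex (ih hkA) hs ha ha'
    · have hA : k = A := le_antisymm h.le.1 (by omega)
      have h1 := h.pw (one_mem_Pw hδ) (Nat.zero_le q)
      have h2 := Conf.flex (a := a - 1) h1 hs (by omega) (by omega)
      have e1 : A + 1 + (a - 1) = A + a := by omega
      rw [e1] at h2
      exact h2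

/-- The key reduction step. -/
lemma Conf.reduce {k A B : ℕ} (hδ : 3 ≤ δ) (h : Conf δ q f k A B) (hA : (2 ^ δ - 2) + k ≤ A) :
    Conf δ q f k (A - (2 ^ δ - 2)) B := by
  induction h with
  | base h hB => exact Conf.base (pw_reduce hδ _ _ h hA) hB
  | @flex k A B a s h hs ha ha' ih =>
    by_cases hkA : (2 ^ δ - 2) + k ≤ A
    · have h1 := Conf.flex (ih hkA) hs ha ha'
      have e1 : A - (2 ^ δ - 2) + a = A + a - (2 ^ δ - 2) := by omega
      rw [e1] at h1
      exact h1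
    · have h1 : Conf δ q f k k B := Conf.base (fac_ones (by omega) k) h.le.2
      have h2 := Conf.flex (a := A + a - (2 ^ δ - 2) - k) h1 hs (by omega) (by omega)
      have e1 : k + (A + a - (2 ^ δ - 2) - k) = A + a - (2 ^ δ - 2) := by omega
      rw [e1] at h2
      exact h2

/-- from `R`-sums to configurations -/
lemma Fac.conf {z k : ℕ} (h : Fac (RR δ q ρ f) z k) :
    ∃ A B, Conf δ q f k A B ∧ z = A * ρ + B := by
  refine Fac.ind (motive := fun z k => ∃ A B, Conf δ q f k A B ∧ z = A * ρ + B)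
    ⟨0, 0, Conf.base (Fac.zero _) (by simp), by simp⟩ ?_ h
  rintro z k r - ⟨a, s, hs, hv, rfl⟩ ⟨A, B, hc, rfl⟩
  refine ⟨A + a, B + s, ?_, by ring⟩
  rcases hv with hv | hv
  · exact Conf.flex hc hs hv.1 hv.2
  · exact hc.pw hv hs

/-- attaching labels to powers of two -/
lemma attach {A k : ℕ} (h : Fac (Pw δ) A k) :
    ∀ B, B ≤ k * q → Fac (RR δ q ρ f) (A * ρ + B) k := by
  refine Fac.ind (motive := fun A k => ∀ B, B ≤ k * q → Fac (RR δ q ρ f) (A * ρ + B) k) ?_ ?_ h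
  · intro B hB
    have : B = 0 := by simpa using hB
    subst this
    simpa using Fac.zero _
  · rintro A k a - ha ih B hB
    rw [add_mul, one_mul] at hB
    by_cases hBq : B ≤ k * q
    · have h1 := (ih B hBq).cons (a := a * ρ + 0) ⟨a, 0, Nat.zero_le q, Or.inr ha, rfl⟩
      have e1 : A * ρ + B + (a * ρ + 0) = (A + a) * ρ + B := by ring
      rw [e1] at h1
      exact h1
    · have h1 := (ih (k * q) (le_refl _)).cons (a := a * ρ + (B - k * q))
        ⟨a, B - k * q, by omega, Or.inr ha, rfl⟩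
      have e1 : A * ρ + k * q + (a * ρ + (B - k * q)) = (A + a) * ρ + B := by
        have : k * q + (B - k * q) = B := by omega
        calc A * ρ + k * q + (a * ρ + (B - k * q)) = (A + a) * ρ + (k * q + (B - k * q)) := by ring
          _ = (A + a) * ρ + B := by rw [this]
      rw [e1] at h1
      exact h1

/-- from configurations to `R`-sums -/
lemma Conf.fac {k A B : ℕ} (h : Conf δ q f k A B) : Fac (RR δ q ρ f) (A * ρ + B) k := by
  induction h with
  | base h hB => exact attach h _ hB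
  | @flex k A B a s _ hs ha ha' ih =>
    have h1 := ih.cons (a := a * ρ + s) ⟨a, s, hs, Or.inl ⟨ha, ha'⟩, rfl⟩
    have e1 : A * ρ + B + (a * ρ + s) = (A + a) * ρ + (B + s) := by ring
    rw [e1] at h1
    exact h1

lemma fac_RR_iff {z k : ℕ} : Fac (RR δ q ρ f) z k ↔ ∃ A B, Conf δ q f k A B ∧ z = A * ρ + B :=
  ⟨Fac.conf, fun ⟨_, _, h, e⟩ => e ▸ h.fac⟩

/-- all parts equal to one -/
lemma conf_ones (hδ : 0 < δ) {k B : ℕ} (hB : B ≤ k * q) : Conf δ q f k k B :=
  Conf.base (fac_ones hδ k) hB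

/-- F0 -/
lemma Fac.mul_le {z k : ℕ} (h : Fac (RR δ q ρ f) z k) : k * ρ ≤ z := by
  obtain ⟨A, B, hc, rfl⟩ := h.conf
  have := Nat.mul_le_mul_right ρ hc.le.1
  omega

lemma fac_atoms (hδ : 0 < δ) {z k : ℕ} (h1 : k * ρ ≤ z) (h2 : z ≤ k * ρ + k * q) :
    Fac (RR δ q ρ f) z k := by
  have h3 := (conf_ones (δ := δ) (q := q) (f := f) hδ (k := k) (B := z - k * ρ)
    (by omega)).fac (ρ := ρ)
  have e : k * ρ + (z - k * ρ) = z := by omega
  rw [e] at h3
  exact h3

/-- F1 -/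
lemma Fac.succ (hδ : 0 < δ) {z k : ℕ} (h : Fac (RR δ q ρ f) z k) (hz : (k + 1) * ρ ≤ z) :
    Fac (RR δ q ρ f) z (k + 1) := by
  obtain ⟨A, B, hc, rfl⟩ := h.conf
  by_cases hkA : k < A
  · exact (hc.split hδ hkA).fac
  · have hA : A = k := le_antisymm (by omega) hc.le.1
    subst hA
    have hB := hc.le.2
    refine fac_atoms hδ hz ?_
    rw [add_mul, add_mul]
    omega

lemma Fac.up (hδ : 0 < δ) {z k k' : ℕ} (h : Fac (RR δ q ρ f) z k) (hk : k ≤ k')
    (hz : k' * ρ ≤ z) : Fac (RR δ q ρ f) z k' := by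
  induction k', hk using Nat.le_induction with
  | base => exact h
  | succ k' hk ih =>
    refine (ih ?_).succ hδ hz
    rw [add_mul] at hz
    omega

/-- F4: shifting down by `N` -/
lemma Fac.down (hδ : 3 ≤ δ) {z k : ℕ} (h : Fac (RR δ q ρ f) z k)
    (hz : (2 ^ δ - 2) * ρ + k * ρ ≤ z) : Fac (RR δ q ρ f) (z - (2 ^ δ - 2) * ρ) k := by
  obtain ⟨A, B, hc, rfl⟩ := h.conf
  by_cases hA : (2 ^ δ - 2) + k ≤ A
  · have h1 := (hc.reduce hδ hA).fac (ρ := ρ)
    have e : (A - (2 ^ δ - 2)) * ρ + B = A * ρ + B - (2 ^ δ - 2) * ρ := by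
      have h2 : (2 ^ δ - 2) * ρ ≤ A * ρ := Nat.mul_le_mul_right ρ (by omega)
      rw [Nat.sub_mul]
      omega
    rw [e] at h1
    exact h1
  · refine fac_atoms (by omega) (by omega) ?_
    have hB := hc.le.2
    have h2 : A * ρ ≤ (2 ^ δ - 2 + k) * ρ := Nat.mul_le_mul_right ρ (by omega)
    rw [add_mul] at h2
    omega

end Pool.Agent.H237R3.Delta
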