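import Pool.Agent.H237R3.DeltaBase

set_option autoImplicit false

namespace Pool.Agent.H237R3.Delta

lemma fac23 {n k : ℕ} : Fac {2, 3} n k ↔ ∃ a b, n = 2 * a + 3 * b ∧ k = a + b := by
  constructor
  · intro h
    refine Fac.ind (motive := fun n k => ∃ a b, n = 2 * a + 3 * b ∧ k = a + b)
      ⟨0, 0, rfl, rfl⟩ ?_ h
    rintro n k g - hg ⟨a, b, rfl, rfl⟩
    simp only [Set.mem_insert_iff, Set.mem_singleton_iff] at hg
    rcases hg with rfl | rfl
    · exact ⟨a + 1, b, by ring, by ring⟩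
    · exact ⟨a, b + 1, by ring, by ring⟩
  · rintro ⟨a, b, rfl, rfl⟩
    refine ⟨Multiset.replicate a 2 + Multiset.replicate b 3, ?_, ?_, ?_⟩
    · intro x hx
      rcases Multiset.mem_add.1 hx with h | h
      · rw [Multiset.eq_of_mem_replicate h]; simp
      · rw [Multiset.eq_of_mem_replicate h]; simp
    · simp [Multiset.sum_replicate]; ring
    · simp

lemma fac4611 {n k : ℕ} : Fac {4, 6, 11} n k ↔
    ∃ a b c, n = 4 * a + 6 * b + 11 * c ∧ k = a + b + c := by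
  constructor
  · intro h
    refine Fac.ind (motive := fun n k => ∃ a b c, n = 4 * a + 6 * b + 11 * c ∧ k = a + b + c)
      ⟨0, 0, 0, rfl, rfl⟩ ?_ h
    rintro n k g - hg ⟨a, b, c, rfl, rfl⟩
    simp only [Set.mem_insert_iff, Set.mem_singleton_iff] at hg
    rcases hg with rfl | rfl | rfl
    · exact ⟨a + 1, b, c, by ring, by ring⟩
    · exact ⟨a, b + 1, c, by ring, by ring⟩
    · exact ⟨a, b, c + 1, by ring, by ring⟩
  · rintro ⟨a, b, c, rfl, rfl⟩
    refine ⟨Multiset.replicate a 4 + Multiset.replicate b 6 + Multiset.replicate c 11,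
      ?_, ?_, ?_⟩
    · intro x hx
      rcases Multiset.mem_add.1 hx with h | h
      · rcases Multiset.mem_add.1 h with h | h
        · rw [Multiset.eq_of_mem_replicate h]; simp
        · rw [Multiset.eq_of_mem_replicate h]; simp
      · rw [Multiset.eq_of_mem_replicate h]; simp
    · simp [Multiset.sum_replicate]; ring
    · simp

lemma caseOne : ∃ S : AddSubmonoid ℕ, ((S : Set ℕ)ᶜ).Finite ∧
        {d : ℕ | 0 < d ∧ ∃ n ∈ S, ∃ k : ℕ,
          (∃ m : Multiset ℕ,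
              (∀ a ∈ m, a ∈ S ∧ a ≠ 0 ∧ ∀ b ∈ S, ∀ c ∈ S, b + c = a → b = 0 ∨ c = 0) ∧
              m.sum = n ∧ Multiset.card m = k) ∧
          (∃ m : Multiset ℕ,
              (∀ a ∈ m, a ∈ S ∧ a ≠ 0 ∧ ∀ b ∈ S, ∀ c ∈ S, b + c = a → b = 0 ∨ c = 0) ∧
              m.sum = n ∧ Multiset.card m = k + d) ∧
          ∀ j : ℕ, k < j → j < k + d →
            ¬ ∃ m : Multiset ℕ,
              (∀ a ∈ m, a ∈ S ∧ a ≠ 0 ∧ ∀ b ∈ S, ∀ c ∈ S, b + c = a → b = 0 ∨ c = 0) ∧
              m.sum = n ∧ Multiset.card m = j} = ({1} : Set ℕ) := by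
  refine realize (G := {2, 3}) ?_ ?_ ?_ _ ?_ ?_
  · rintro g hg rfl
    simp at hg
  · intro g hg b hb c hc hbc
    obtain ⟨k, hk⟩ := mem_closure_iff.1 hb
    obtain ⟨l, hl⟩ := mem_closure_iff.1 hc
    obtain ⟨a1, b1, h1, -⟩ := fac23.1 hk
    obtain ⟨a2, b2, h2, -⟩ := fac23.1 hl
    simp only [Set.mem_insert_iff, Set.mem_singleton_iff] at hg
    have e1 : b = 0 ∨ 2 ≤ b := by
      rcases Nat.eq_zero_or_pos a1 with h | h <;> rcases Nat.eq_zero_or_pos b1 with h' | h' <;>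
        omega
    have e2 : c = 0 ∨ 2 ≤ c := by
      rcases Nat.eq_zero_or_pos a2 with h | h <;> rcases Nat.eq_zero_or_pos b2 with h' | h' <;>
        omega
    omega
  · exact cofinite_of_consec (a := 2) (AddSubmonoid.subset_closure (by simp))
      (AddSubmonoid.subset_closure (by simp))
  · intro n k d hd hk hkd hno
    obtain ⟨a, b, h1, h2⟩ := fac23.1 hk
    obtain ⟨a', b', h3, h4⟩ := fac23.1 hkd
    simp only [Set.mem_singleton_iff]
    by_contra hd1
    rcases Nat.lt_or_ge b 2 with hb | hb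
    · omega
    · apply hno (k + 1) (by omega) (by omega)
      exact fac23.2 ⟨a + 3, b - 2, by omega, by omega⟩
  · intro d hd
    simp only [Set.mem_singleton_iff] at hd
    subst hd
    refine ⟨by norm_num, 6, 2, fac23.2 ⟨0, 2, by norm_num, by norm_num⟩,
      fac23.2 ⟨3, 0, by norm_num, by norm_num⟩, ?_⟩
    intro j h1 h2
    omega

lemma caseTwo : ∃ S : AddSubmonoid ℕ, ((S : Set ℕ)ᶜ).Finite ∧
        {d : ℕ | 0 < d ∧ ∃ n ∈ S, ∃ k : ℕ,
          (∃ m : Multiset ℕ,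
              (∀ a ∈ m, a ∈ S ∧ a ≠ 0 ∧ ∀ b ∈ S, ∀ c ∈ S, b + c = a → b = 0 ∨ c = 0) ∧
              m.sum = n ∧ Multiset.card m = k) ∧
          (∃ m : Multiset ℕ,
              (∀ a ∈ m, a ∈ S ∧ a ≠ 0 ∧ ∀ b ∈ S, ∀ c ∈ S, b + c = a → b = 0 ∨ c = 0) ∧
              m.sum = n ∧ Multiset.card m = k + d) ∧
          ∀ j : ℕ, k < j → j < k + d →
            ¬ ∃ m : Multiset ℕ,
              (∀ a ∈ m, a ∈ S ∧ a ≠ 0 ∧ ∀ b ∈ S, ∀ c ∈ S, b + c = a → b = 0 ∨ c = 0) ∧
              m.sum = n ∧ Multiset.card m = j} = ({1, 2} : Set ℕ) := by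
  refine realize (G := {4, 6, 11}) ?_ ?_ ?_ _ ?_ ?_
  · rintro g hg rfl
    simp at hg
  · intro g hg b hb c hc hbc
    obtain ⟨k, hk⟩ := mem_closure_iff.1 hb
    obtain ⟨l, hl⟩ := mem_closure_iff.1 hc
    obtain ⟨a1, b1, c1, h1, -⟩ := fac4611.1 hk
    obtain ⟨a2, b2, c2, h2, -⟩ := fac4611.1 hl
    simp only [Set.mem_insert_iff, Set.mem_singleton_iff] at hg
    have e0 : ∀ x y z w : ℕ, w = 4 * x + 6 * y + 11 * z → w = 0 ∨ w = 4 ∨ w = 6 ∨ 8 ≤ w := by
      intro x y z w hw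
      rcases Nat.eq_zero_or_pos z with hz | hz
      · rcases Nat.lt_or_ge x 2 with hx | hx
        · rcases Nat.lt_or_ge y 2 with hy | hy
          · have hx' : x = 0 ∨ x = 1 := by omega
            have hy' : y = 0 ∨ y = 1 := by omega
            rcases hx' with rfl | rfl <;> rcases hy' with rfl | rfl <;> omega
          · omega
        · omega
      · omega
    have e1 := e0 a1 b1 c1 b h1
    have e2 := e0 a2 b2 c2 c h2
    omega
  · refine cofinite_of_consec (a := 10) ?_ ?_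
    · exact mem_closure_iff.2 ⟨2, fac4611.2 ⟨1, 1, 0, by norm_num, by norm_num⟩⟩
    · exact mem_closure_iff.2 ⟨1, fac4611.2 ⟨0, 0, 1, by norm_num, by norm_num⟩⟩
  · intro n k d hd hk hkd hno
    obtain ⟨a, b, c, h1, h2⟩ := fac4611.1 hk
    obtain ⟨a', b', c', h3, h4⟩ := fac4611.1 hkd
    simp only [Set.mem_insert_iff, Set.mem_singleton_iff]
    by_contra hd1
    rw [not_or] at hd1
    obtain ⟨hd1, hd2⟩ := hd1
    rcases Nat.lt_or_ge b 2 with hb | hb
    · rcases Nat.lt_or_ge c 2 with hc | hc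
      · omega
      · apply hno (k + 2) (by omega) (by omega)
        exact fac4611.2 ⟨a + 1, b + 3, c - 2, by omega, by omega⟩
    · apply hno (k + 1) (by omega) (by omega)
      exact fac4611.2 ⟨a + 3, b - 2, c, by omega, by omega⟩
  · intro d hd
    simp only [Set.mem_insert_iff, Set.mem_singleton_iff] at hd
    rcases hd with rfl | rfl
    · refine ⟨by norm_num, 12, 2, fac4611.2 ⟨0, 2, 0, by norm_num, by norm_num⟩,
        fac4611.2 ⟨3, 0, 0, by norm_num, by norm_num⟩, ?_⟩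
      intro j h1 h2
      omega
    · refine ⟨by norm_num, 22, 2, fac4611.2 ⟨0, 0, 2, by norm_num, by norm_num⟩,
        fac4611.2 ⟨1, 3, 0, by norm_num, by norm_num⟩, ?_⟩
      intro j h1 h2 hj
      obtain ⟨a, b, c, h3, h4⟩ := fac4611.1 hj
      omega

end Pool.Agent.H237R3.Delta
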