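import Pool.Agent.H237R3.DeltaMain
import Pool.Agent.H237R3.DeltaSmall

set_option autoImplicit false

namespace Pool.Agent.H237R3.Delta

variable {δ q ρ : ℕ} {f : ℕ → ℕ}

/-- going down from `m N + w` to `N + w` -/
lemma down_many (P : Par δ q ρ f) {w k : ℕ} (hk : k ≤ δ) (m : ℕ)
    (h : Fac (RR δ q ρ f) ((m + 1) * ((2 ^ δ - 2) * ρ) + w) k) :
    Fac (RR δ q ρ f) ((2 ^ δ - 2) * ρ + w) k := by
  induction m with
  | zero => simpa using h
  | succ m ih =>
    apply ih
    have h2 := P.two_pow.2.2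
    have h3 : k * ρ ≤ (2 ^ δ - 2) * ρ := Nat.mul_le_mul_right ρ (by omega)
    have e : (m + 1 + 1) * ((2 ^ δ - 2) * ρ) + w =
        ((m + 1) * ((2 ^ δ - 2) * ρ) + w) + (2 ^ δ - 2) * ρ := by ring
    have e' : (m + 1) * ((2 ^ δ - 2) * ρ) = m * ((2 ^ δ - 2) * ρ) + (2 ^ δ - 2) * ρ := by ring
    have h4 := h.down P.hδ (by rw [e, e']; omega)
    rw [e, Nat.add_sub_cancel] at h4
    exact h4

lemma fac_one {z : ℕ} (hz : z ∈ RR δ q ρ f) : Fac (RR δ q ρ f) z 1 := by
  simpa using (Fac.zero _).cons hz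

lemma mem_RR {b s : ℕ} (hb : b ∈ Pw δ) (hs : s ≤ q) : b * ρ + s ∈ RR δ q ρ f :=
  ⟨b, s, hs, Or.inr hb, rfl⟩

/-- every `f s` is attained -/
lemma attained (P : Par δ q ρ f) {s : ℕ} (hs : s ≤ q) :
    ∃ n k, Fac (GG δ q ρ f) n k ∧ Fac (GG δ q ρ f) n (k + f s) ∧
      ∀ j, k < j → j < k + f s → ¬ Fac (GG δ q ρ f) n j := by
  have hδ := P.hδ
  have hf2 := P.hf2 s hs
  have hf1 := P.hf1 s hs
  have hNp := N_pos P
  have hqρ := P.q_lt
  have h1 : (1 : ℕ) ∈ Pw δ := one_mem_Pw (by omega)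
  refine ⟨(2 * f s + 1) * ((2 ^ δ - 2) * ρ) + (ρ + s), f s, ?_, ?_, ?_⟩
  · refine facG_iff.2 ⟨f s, (2 ^ δ - 2) * ρ + (ρ + s), le_refl _, by ring, ex1 P hs⟩
  · refine facG_iff.2 ⟨1, ρ + s, by omega, by ring, ?_⟩
    have := fac_one (mem_RR (ρ := ρ) (f := f) h1 hs)
    simpa using this
  · intro j hj1 hj2 hj
    obtain ⟨k, z, hk, hn, hz⟩ := facG_iff.1 hj
    by_cases hle : j + k ≤ 2 * f s
    · obtain ⟨m, hm⟩ := Nat.exists_eq_add_of_le hle
      have hz' : z = (m + 1) * ((2 ^ δ - 2) * ρ) + (ρ + s) := by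
        have e : (2 * f s + 1) * ((2 ^ δ - 2) * ρ) + (ρ + s) =
            (j + k) * ((2 ^ δ - 2) * ρ) + ((m + 1) * ((2 ^ δ - 2) * ρ) + (ρ + s)) := by
          rw [hm]; ring
        rw [e] at hn
        omega
      rw [hz'] at hz
      have h2 := down_many P (by omega) m hz
      have h3 := low1 P hs h2
      omega
    · -- `j + k ≥ 2 f s + 1`
      obtain ⟨m, hm⟩ := Nat.exists_eq_add_of_lt (Nat.lt_of_not_le hle)
      have e : (j + k) * ((2 ^ δ - 2) * ρ) =
          (2 * f s + 1) * ((2 ^ δ - 2) * ρ) + m * ((2 ^ δ - 2) * ρ) := by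
        rw [hm]; ring
      rw [e] at hn
      have hz' : z ≤ ρ + s := by omega
      have h2 := hz.mul_le
      have h3 : k ≤ 1 := by
        by_contra hne
        have : 2 * ρ ≤ k * ρ := Nat.mul_le_mul_right ρ (by omega)
        omega
      omega

lemma one_attained (P : Par δ q ρ f) :
    ∃ n k, Fac (GG δ q ρ f) n k ∧ Fac (GG δ q ρ f) n (k + 1) ∧
      ∀ j, k < j → j < k + 1 → ¬ Fac (GG δ q ρ f) n j := by
  have hδ := P.hδ
  refine ⟨4 * ((2 ^ δ - 2) * ρ) + 2 * ρ, 2, ?_, ?_, ?_⟩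
  · refine facG_iff.2 ⟨2, 2 * ρ, le_refl _, by ring, ?_⟩
    exact fac_atoms (by omega) (le_refl _) (by omega)
  · refine facG_iff.2 ⟨1, 2 * ρ, by omega, by ring, ?_⟩
    have h2 : (2 : ℕ) ∈ Pw δ := ⟨1, by omega, by norm_num⟩
    have := fac_one (mem_RR (ρ := ρ) (f := f) h2 (Nat.zero_le q))
    simpa using this
  · intro j h1 h2
    omega

lemma RR_lt (P : Par δ q ρ f) {r : ℕ} (hr : r ∈ RR δ q ρ f) : 0 < r ∧ r < (2 ^ δ - 2) * ρ := by
  obtain ⟨a, s, hs, hv, rfl⟩ := hr
  obtain ⟨h8, hp, -⟩ := P.two_pow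
  have hqρ := P.q_lt
  have hδ := P.hδ
  have ha : a ≤ 2 ^ (δ - 1) := by
    rcases hv with ⟨-, h⟩ | ⟨j, hj, rfl⟩
    · have h1 : 2 ^ (δ + 1 - f s) ≤ 2 ^ (δ - 1) :=
        Nat.pow_le_pow_right (by norm_num) (by have := P.hf1 s hs; omega)
      omega
    · exact Nat.pow_le_pow_right (by norm_num) (by omega)
  have h1 := hv.pos
  constructor
  · have : 1 * ρ ≤ a * ρ := Nat.mul_le_mul_right ρ h1
    omega
  · have h2 : (a + 1) * ρ ≤ (2 ^ δ - 2) * ρ := Nat.mul_le_mul_right ρ (by omega)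
    rw [add_mul, one_mul] at h2
    omega

lemma main_case (P : Par δ q ρ f) (D : Set ℕ) (hD1 : 1 ∈ D) (hD2 : ∀ s ≤ q, f s ∈ D)
    (hD3 : ∀ d ∈ D, d = 1 ∨ ∃ s ≤ q, d = f s) :
    ∃ S : AddSubmonoid ℕ, ((S : Set ℕ)ᶜ).Finite ∧
        {d : ℕ | 0 < d ∧ ∃ n ∈ S, ∃ k : ℕ,
          (∃ m : Multiset ℕ,
              (∀ a ∈ m, a ∈ S ∧ a ≠ 0 ∧ ∀ b ∈ S, ∀ c ∈ S, b + c = a → b = 0 ∨ c = 0) ∧
              m.sum = n ∧ Multiset.card m = k) ∧
          (∃ m : Multiset ℕ,
              (∀ a ∈ m, a ∈ S ∧ a ≠ 0 ∧ ∀ b ∈ S, ∀ c ∈ S, b + c = a → b = 0 ∨ c = 0) ∧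
              m.sum = n ∧ Multiset.card m = k + d) ∧
          ∀ j : ℕ, k < j → j < k + d →
            ¬ ∃ m : Multiset ℕ,
              (∀ a ∈ m, a ∈ S ∧ a ≠ 0 ∧ ∀ b ∈ S, ∀ c ∈ S, b + c = a → b = 0 ∨ c = 0) ∧
              m.sum = n ∧ Multiset.card m = j} = D := by
  have hNp := N_pos P
  have hqρ := P.q_lt
  have hδ := P.hδ
  refine realize (G := GG δ q ρ f) ?_ ?_ ?_ D ?_ ?_
  · rintro g (rfl | ⟨r, -, rfl⟩) <;> omega
  · intro g hg b hb c hc hbc
    obtain ⟨l, hl⟩ := mem_closure_iff.1 hb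
    obtain ⟨l', hl'⟩ := mem_closure_iff.1 hc
    obtain ⟨k, z, hk, hn, hz⟩ := facG_iff.1 hl
    obtain ⟨k', z', hk', hn', hz'⟩ := facG_iff.1 hl'
    by_contra hne
    rw [not_or] at hne
    obtain ⟨hb0, hc0⟩ := hne
    have hl0 : 1 ≤ l := by
      by_contra hl0
      have h1 : k = 0 := by omega
      have h2 : l = 0 := by omega
      subst h1 h2
      have := fac_zero_eq hz
      subst this
      simp at hn
      exact hb0 hn
    have hl0' : 1 ≤ l' := by
      by_contra hl0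
      have h1 : k' = 0 := by omega
      have h2 : l' = 0 := by omega
      subst h1 h2
      have := fac_zero_eq hz'
      subst this
      simp at hn'
      exact hc0 hn'
    obtain ⟨N, hN⟩ : ∃ N, N = (2 ^ δ - 2) * ρ := ⟨_, rfl⟩
    rw [← hN] at hn hn' hNp
    have hsum : b + c = (l + k + (l' + k')) * N + (z + z') := by rw [hn, hn']; ring
    rcases hg with rfl | ⟨r, hr, rfl⟩
    · rw [← hN] at hbc
      have : 2 * N ≤ (l + k + (l' + k')) * N := Nat.mul_le_mul_right N (by omega)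
      omega
    · have hr' := RR_lt P hr
      rw [← hN] at hbc hr'
      have h3 : l + k + (l' + k') < 3 := by
        by_contra h3
        have : 3 * N ≤ (l + k + (l' + k')) * N := Nat.mul_le_mul_right N (by omega)
        omega
      have h4 : k = 0 := by omega
      have h5 : k' = 0 := by omega
      subst h4 h5
      have h6 := fac_zero_eq hz
      have h7 := fac_zero_eq hz'
      have h8 : l = 1 := by omega
      have h9 : l' = 1 := by omega
      subst h6 h7 h8 h9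
      omega
  · refine cofinite_of_consec (a := 2 * ((2 ^ δ - 2) * ρ) + ρ) ?_ ?_
    · apply AddSubmonoid.subset_closure
      refine Or.inr ⟨ρ, ?_, rfl⟩
      have := mem_RR (ρ := ρ) (f := f) (one_mem_Pw (δ := δ) (by omega)) (Nat.zero_le q)
      simpa using this
    · apply AddSubmonoid.subset_closure
      refine Or.inr ⟨ρ + 1, ?_, by ring⟩
      have := mem_RR (ρ := ρ) (f := f) (one_mem_Pw (δ := δ) (by omega)) P.hq1
      simpa using this
  · intro n k d hd hk hkd hno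
    rcases Nat.lt_or_ge d 2 with hd2 | hd2
    · have : d = 1 := by omega
      rw [this]
      exact hD1
    · obtain ⟨s, hs, hfs⟩ := gap P hk hkd (by omega) (hno (k + 1) (by omega) (by omega))
      have : d = f s := by omega
      rw [this]
      exact hD2 s hs
  · intro d hd
    rcases hD3 d hd with rfl | ⟨s, hs, rfl⟩
    · exact ⟨by norm_num, one_attained P⟩
    · exact ⟨by have := P.hf1 s hs; omega, attained P hs⟩

/-- The general theorem. -/
theorem main (D : Finset ℕ) (hpos : ∀ d ∈ D, 0 < d) (h1 : 1 ∈ D) :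
    ∃ S : AddSubmonoid ℕ, ((S : Set ℕ)ᶜ).Finite ∧
        {d : ℕ | 0 < d ∧ ∃ n ∈ S, ∃ k : ℕ,
          (∃ m : Multiset ℕ,
              (∀ a ∈ m, a ∈ S ∧ a ≠ 0 ∧ ∀ b ∈ S, ∀ c ∈ S, b + c = a → b = 0 ∨ c = 0) ∧
              m.sum = n ∧ Multiset.card m = k) ∧
          (∃ m : Multiset ℕ,
              (∀ a ∈ m, a ∈ S ∧ a ≠ 0 ∧ ∀ b ∈ S, ∀ c ∈ S, b + c = a → b = 0 ∨ c = 0) ∧
              m.sum = n ∧ Multiset.card m = k + d) ∧
          ∀ j : ℕ, k < j → j < k + d →
            ¬ ∃ m : Multiset ℕ,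
              (∀ a ∈ m, a ∈ S ∧ a ≠ 0 ∧ ∀ b ∈ S, ∀ c ∈ S, b + c = a → b = 0 ∨ c = 0) ∧
              m.sum = n ∧ Multiset.card m = j} = (D : Set ℕ) := by
  obtain ⟨δ, hδD, hδmax⟩ : ∃ δ ∈ D, ∀ d ∈ D, d ≤ δ :=
    ⟨D.max' ⟨1, h1⟩, D.max'_mem _, fun d hd => D.le_max' d hd⟩
  rcases Nat.lt_or_ge δ 3 with hδ3 | hδ3
  · rcases Nat.lt_or_ge δ 2 with hδ2 | hδ2
    · have hD : (D : Set ℕ) = {1} := by
        ext d
        simp only [Finset.mem_coe, Set.mem_singleton_iff]
        constructor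
        · intro hd
          have := hpos d hd
          have := hδmax d hd
          omega
        · rintro rfl; exact h1
      rw [hD]
      exact caseOne
    · have hδ' : δ = 2 := by omega
      have hD : (D : Set ℕ) = {1, 2} := by
        ext d
        simp only [Finset.mem_coe, Set.mem_insert_iff, Set.mem_singleton_iff]
        constructor
        · intro hd
          have := hpos d hd
          have := hδmax d hd
          omega
        · rintro (rfl | rfl)
          · exact h1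
          · rw [← hδ']; exact hδD
      rw [hD]
      exact caseTwo
  · -- the smallest element `e` of `D` other than `1`
    obtain ⟨e, heD, hemin⟩ : ∃ e ∈ D.erase 1, ∀ d ∈ D.erase 1, e ≤ d := by
      have hne : (D.erase 1).Nonempty := ⟨δ, Finset.mem_erase.2 ⟨by omega, hδD⟩⟩
      exact ⟨(D.erase 1).min' hne, Finset.min'_mem _ _, fun d hd => Finset.min'_le _ d hd⟩
    have he := Finset.mem_erase.1 heD
    have he0 := hpos e he.2
    have he2 : 2 ≤ e := by omega
    have heδ : e ≤ δ := hδmax e he.2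
    set f : ℕ → ℕ := fun s => (D.filter (fun x => x ≤ 2 * δ - s)).sup id with hf
    have hfle : ∀ s, ∀ x ∈ D, x ≤ 2 * δ - s → x ≤ f s := by
      intro s x hx hxs
      exact Finset.le_sup (f := id) (Finset.mem_filter.2 ⟨hx, hxs⟩)
    have hfmem : ∀ s, s ≤ 2 * δ - e → f s ∈ D ∧ f s ≤ 2 * δ - s := by
      intro s hs
      have hne : (D.filter (fun x => x ≤ 2 * δ - s)).Nonempty :=
        ⟨e, Finset.mem_filter.2 ⟨he.2, by omega⟩⟩
      obtain ⟨x, hx, hxe⟩ := Finset.exists_mem_eq_sup _ hne id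
      have hx' := Finset.mem_filter.1 hx
      have : f s = x := hxe
      rw [this]
      exact hx'
    have P : Par δ (2 * δ - e) (2 * δ * δ + 1) f :=
      { hδ := hδ3
        hq1 := by omega
        hq2 := by omega
        hρ := by
          have h2 : δ * (2 * δ - e) ≤ δ * (2 * δ) := Nat.mul_le_mul_left δ (by omega)
          have h3 : δ * (2 * δ) = 2 * δ * δ := by ring
          omega
        hf1 := by
          intro s hs
          have := hfle s e he.2 (by omega)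
          omega
        hf2 := fun s hs => hδmax _ (hfmem s hs).1
        hf3 := by
          intro s hs hsδ
          apply le_antisymm (hδmax _ (hfmem s hs).1)
          exact hfle s δ hδD (by omega)
        hf4 := by
          intro s s' hss hs'
          obtain ⟨h3, h4⟩ := hfmem s' hs'
          exact hfle s _ h3 (by omega) }
    refine main_case P (D : Set ℕ) h1 (fun s hs => (hfmem s hs).1) ?_
    intro d hd
    by_cases hd1 : d = 1
    · exact Or.inl hd1
    · right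
      have hdD : d ∈ D := hd
      have hed : e ≤ d := hemin d (Finset.mem_erase.2 ⟨hd1, hdD⟩)
      have hdδ := hδmax d hdD
      refine ⟨2 * δ - d, by omega, ?_⟩
      apply le_antisymm
      · exact hfle _ d hdD (by omega)
      · have := (hfmem (2 * δ - d) (by omega)).2
        omega

end Pool.Agent.H237R3.Delta
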