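import Pool.Agent.H237R3.DeltaConf

set_option autoImplicit false

namespace Pool.Agent.H237R3.Delta

variable {δ q ρ : ℕ} {f : ℕ → ℕ}

lemma Par.two_pow (P : Par δ q ρ f) : 8 ≤ 2 ^ δ ∧ 2 ^ δ = 2 * 2 ^ (δ - 1) ∧ δ + 2 ≤ 2 ^ δ := by
  have hδ := P.hδ
  refine ⟨?_, ?_, ?_⟩
  · calc 8 = 2 ^ 3 := by norm_num
      _ ≤ 2 ^ δ := Nat.pow_le_pow_right (by norm_num) hδ
  · conv_lhs => rw [show δ = (δ - 1) + 1 by omega]
    rw [pow_succ]; ring
  · obtain ⟨c, rfl⟩ := Nat.exists_eq_add_of_le hδ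
    have h1 : c < 2 ^ c := Nat.lt_two_pow_self
    rw [pow_add]
    omega

lemma Par.q_lt (P : Par δ q ρ f) : q < ρ := by
  have h1 := P.hρ
  have h2 := P.hδ
  nlinarith

lemma lb1 (P : Par δ q ρ f) {k A B : ℕ} (h : Conf δ q f k A B) (hB : B ≤ δ) : pc A ≤ k := by
  induction h with
  | base h _ => exact h.pc_le
  | @flex k A B a s _ hs ha ha' ih =>
    have h1 : f s = δ := P.hf3 s hs (by omega)
    rw [h1] at ha'
    have h2 : δ + 1 - δ = 1 := by omega
    rw [h2] at ha'
    have h3 : a = 1 := by omega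
    subst h3
    have h4 := ih (by omega)
    have h5 := pc_add_one_le A
    omega

lemma lb2 (P : Par δ q ρ f) {k A B s₀ : ℕ} (h : Conf δ q f k A B) (hs₀ : s₀ ≤ q)
    (hB : B ≤ s₀) : pc A + 1 ≤ k + (δ + 1 - f s₀) := by
  have hq := P.hq2
  have hfs := P.hf2 s₀ hs₀
  induction h with
  | base h _ =>
    have := h.pc_le
    omega
  | @flex k A B a s h hs ha ha' ih =>
    by_cases hsδ : s ≤ δ
    · have h1 : f s = δ := P.hf3 s hs hsδ
      rw [h1] at ha'
      have h2 : δ + 1 - δ = 1 := by omega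
      rw [h2] at ha'
      have h3 : a = 1 := by omega
      subst h3
      have h4 := ih (by omega)
      have h5 := pc_add_one_le A
      omega
    · have h1 := lb1 P h (by omega)
      have h2 := pc_le_of_lt ha'
      have h3 := P.hf4 s s₀ (by omega) hs₀
      have h4 := pc_add_le A a
      omega

/-- `Conf` data of a number with small quotient -/
lemma div_unique {ρ A B A' B' : ℕ} (h : A * ρ + B = A' * ρ + B') (hB : B < ρ) (hB' : B' < ρ) :
    A = A' ∧ B = B' := by
  have h0 : 0 < ρ := by omega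
  have h1 : (A * ρ + B) / ρ = A := by
    rw [mul_comm, Nat.mul_add_div h0, Nat.div_eq_of_lt hB, add_zero]
  have h2 : (A' * ρ + B') / ρ = A' := by
    rw [mul_comm, Nat.mul_add_div h0, Nat.div_eq_of_lt hB', add_zero]
  have h3 : A = A' := by rw [← h1, ← h2, h]
  subst h3
  exact ⟨rfl, by omega⟩

lemma low0 (P : Par δ q ρ f) {k : ℕ} (h : Fac (RR δ q ρ f) ((2 ^ δ - 2) * ρ) k) : δ - 1 ≤ k := by
  by_contra hk
  obtain ⟨A, B, hc, hz⟩ := h.conf
  have hB := hc.le.2
  have h1 : k * q ≤ δ * q := Nat.mul_le_mul_right q (by omega)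
  have h2 := P.hρ
  have h3 := div_unique (A := 2 ^ δ - 2) (B := 0) (A' := A) (B' := B) (ρ := ρ) (by omega)
    (by omega) (by omega)
  obtain ⟨rfl, rfl⟩ := h3
  have h4 := lb1 P hc (by omega)
  obtain ⟨h8, hp, -⟩ := P.two_pow
  have h5 : 2 ^ δ - 2 = 2 * (2 ^ (δ - 1) - 1) := by omega
  rw [h5, pc_two_mul, pc_full] at h4
  omega

lemma low1 (P : Par δ q ρ f) {k s : ℕ} (hs : s ≤ q)
    (h : Fac (RR δ q ρ f) ((2 ^ δ - 2) * ρ + (ρ + s)) k) : f s ≤ k := by
  by_contra hk
  obtain ⟨A, B, hc, hz⟩ := h.conf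
  have hB := hc.le.2
  have hfs := P.hf2 s hs
  have h1 : k * q ≤ δ * q := Nat.mul_le_mul_right q (by omega)
  have h2 := P.hρ
  have hq := P.q_lt
  obtain ⟨h8, -, -⟩ := P.two_pow
  have h6 : (2 ^ δ - 1) * ρ = (2 ^ δ - 2) * ρ + ρ := by
    have : 2 ^ δ - 1 = (2 ^ δ - 2) + 1 := by omega
    rw [this, add_mul, one_mul]
  have h3 := div_unique (A := 2 ^ δ - 1) (B := s) (A' := A) (B' := B) (ρ := ρ) (by omega)
    (by omega) (by omega)
  obtain ⟨rfl, rfl⟩ := h3
  have h4 := lb2 P hc hs (le_refl _)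
  rw [pc_full] at h4
  omega

lemma ex0 (P : Par δ q ρ f) : Fac (RR δ q ρ f) ((2 ^ δ - 2) * ρ) (δ - 1) := by
  have hδ := P.hδ
  have h1 := fac_top (δ := δ) (δ - 1) (by omega)
  have h2 : δ - (δ - 1) = 1 := by omega
  rw [h2, pow_one] at h1
  have h3 := (Conf.base (f := f) (q := q) (B := 0) h1 (Nat.zero_le _)).fac (ρ := ρ)
  simpa using h3

lemma ex1 (P : Par δ q ρ f) {s : ℕ} (hs : s ≤ q) :
    Fac (RR δ q ρ f) ((2 ^ δ - 2) * ρ + (ρ + s)) (f s) := by
  have hδ := P.hδ
  have hf1 := P.hf1 s hs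
  have hf2 := P.hf2 s hs
  have h1 := fac_top (δ := δ) (f s - 1) (by omega)
  have h2 : δ - (f s - 1) = δ + 1 - f s := by omega
  rw [h2] at h1
  have hle : 2 ^ (δ + 1 - f s) ≤ 2 ^ δ := Nat.pow_le_pow_right (by norm_num) (by omega)
  have hge : 2 ≤ 2 ^ (δ + 1 - f s) := by
    calc 2 = 2 ^ 1 := by norm_num
      _ ≤ 2 ^ (δ + 1 - f s) := Nat.pow_le_pow_right (by norm_num) (by omega)
  have h3 := Conf.flex (a := 2 ^ (δ + 1 - f s) - 1)
    (Conf.base (f := f) (q := q) (B := 0) h1 (Nat.zero_le _)) hs (by omega) (by omega)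
  have h4 := h3.fac (ρ := ρ)
  have h5 : f s - 1 + 1 = f s := by omega
  have h6 : 2 ^ δ - 2 ^ (δ + 1 - f s) + (2 ^ (δ + 1 - f s) - 1) = (2 ^ δ - 2) + 1 := by omega
  rw [h5, h6, add_mul, one_mul, zero_add, add_assoc] at h4
  exact h4

/-- F3 -/
lemma up2 (P : Par δ q ρ f) {c B : ℕ} (hc : 2 ≤ c) (hB : B ≤ c * q) :
    Fac (RR δ q ρ f) (c * ρ + B + (2 ^ δ - 2) * ρ) c := by
  have hδ := P.hδ
  obtain ⟨h8, hp, -⟩ := P.two_pow
  have hj : (2 ^ (δ - 1) : ℕ) ∈ Pw δ := ⟨δ - 1, by omega, rfl⟩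
  have h1 := ((fac_ones (δ := δ) (by omega) (c - 2)).cons hj).cons hj
  have h2 : c - 2 + 2 ^ (δ - 1) + 2 ^ (δ - 1) = c + (2 ^ δ - 2) := by omega
  have h3 : c - 2 + 1 + 1 = c := by omega
  rw [h2, h3] at h1
  have h4 := (Conf.base (f := f) (q := q) h1 hB).fac (ρ := ρ)
  have h5 : (c + (2 ^ δ - 2)) * ρ + B = c * ρ + B + (2 ^ δ - 2) * ρ := by ring
  rw [h5] at h4
  exact h4

lemma add_N (P : Par δ q ρ f) {z k : ℕ} (h : Fac (RR δ q ρ f) z k) (j : ℕ) :
    Fac (RR δ q ρ f) (z + j * ((2 ^ δ - 2) * ρ)) (k + j * (δ - 1)) := by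
  induction j with
  | zero => simpa using h
  | succ j ih =>
    have h1 := ih.add (ex0 P)
    have e1 : z + j * ((2 ^ δ - 2) * ρ) + (2 ^ δ - 2) * ρ = z + (j + 1) * ((2 ^ δ - 2) * ρ) := by
      ring
    have e2 : k + j * (δ - 1) + (δ - 1) = k + (j + 1) * (δ - 1) := by ring
    rw [e1, e2] at h1
    exact h1

/-- the generators -/
def GG (δ q ρ : ℕ) (f : ℕ → ℕ) : Set ℕ :=
  {g | g = (2 ^ δ - 2) * ρ ∨ ∃ r ∈ RR δ q ρ f, g = 2 * ((2 ^ δ - 2) * ρ) + r}

lemma facG_iff {n l : ℕ} : Fac (GG δ q ρ f) n l ↔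
    ∃ k z, k ≤ l ∧ n = (l + k) * ((2 ^ δ - 2) * ρ) + z ∧ Fac (RR δ q ρ f) z k := by
  constructor
  · intro h
    refine Fac.ind (motive := fun n l => ∃ k z, k ≤ l ∧ n = (l + k) * ((2 ^ δ - 2) * ρ) + z ∧
      Fac (RR δ q ρ f) z k) ⟨0, 0, le_refl _, by simp, Fac.zero _⟩ ?_ h
    rintro n l g - hg ⟨k, z, hk, rfl, hz⟩
    rcases hg with rfl | ⟨r, hr, rfl⟩
    · exact ⟨k, z, by omega, by ring, hz⟩
    · exact ⟨k + 1, z + r, by omega, by ring, hz.cons hr⟩
  · rintro ⟨k, z, hk, rfl, hz⟩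
    -- first the `R` part
    have h1 : Fac (GG δ q ρ f) (k * (2 * ((2 ^ δ - 2) * ρ)) + z) k := by
      refine Fac.ind (motive := fun z k => Fac (GG δ q ρ f) (k * (2 * ((2 ^ δ - 2) * ρ)) + z) k)
        (by simpa using Fac.zero _) ?_ hz
      intro z k r _ hr ih
      have h2 := ih.cons (a := 2 * ((2 ^ δ - 2) * ρ) + r) (Or.inr ⟨r, hr, rfl⟩)
      have e : k * (2 * ((2 ^ δ - 2) * ρ)) + z + (2 * ((2 ^ δ - 2) * ρ) + r) =
          (k + 1) * (2 * ((2 ^ δ - 2) * ρ)) + (z + r) := by ring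
      rw [e] at h2
      exact h2
    have h2 : ∀ j, Fac (GG δ q ρ f) (k * (2 * ((2 ^ δ - 2) * ρ)) + z + j * ((2 ^ δ - 2) * ρ))
        (k + j) := by
      intro j
      induction j with
      | zero => simpa using h1
      | succ j ih =>
        have h3 := ih.cons (a := (2 ^ δ - 2) * ρ) (Or.inl rfl)
        have e : k * (2 * ((2 ^ δ - 2) * ρ)) + z + j * ((2 ^ δ - 2) * ρ) + (2 ^ δ - 2) * ρ =
          k * (2 * ((2 ^ δ - 2) * ρ)) + z + (j + 1) * ((2 ^ δ - 2) * ρ) := by ring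
        rw [e] at h3
        exact h3
    have h3 := h2 (l - k)
    obtain ⟨c, rfl⟩ := Nat.exists_eq_add_of_le hk
    have e1 : k + c - k = c := by omega
    rw [e1] at h3
    have e2 : k * (2 * ((2 ^ δ - 2) * ρ)) + z + c * ((2 ^ δ - 2) * ρ) =
      (k + c + k) * ((2 ^ δ - 2) * ρ) + z := by ring
    rw [e2] at h3
    exact h3

lemma N_pos (P : Par δ q ρ f) : 6 * ρ ≤ (2 ^ δ - 2) * ρ :=
  Nat.mul_le_mul_right ρ (by have := P.two_pow.1; omega)

lemma fac_zero_eq {G : Set ℕ} {z : ℕ} (h : Fac G z 0) : z = 0 := by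
  obtain ⟨m, -, hs, hc⟩ := h
  rw [Multiset.card_eq_zero] at hc
  subst hc
  simpa using hs.symm

/-- the gaps -/
lemma gap (P : Par δ q ρ f) {n l l' : ℕ} (h : Fac (GG δ q ρ f) n l) (h' : Fac (GG δ q ρ f) n l')
    (hl : l + 2 ≤ l') (hno : ¬ Fac (GG δ q ρ f) n (l + 1)) : ∃ s ≤ q, l' = l + f s := by
  obtain ⟨k, z, hk, hn, hz⟩ := facG_iff.1 h
  obtain ⟨k', z', hk', hn', hz'⟩ := facG_iff.1 h'
  have hδ := P.hδ
  have hNp := N_pos P
  have hqρ := P.q_lt
  have hρ0 : 0 < ρ := by omega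
  obtain ⟨N, hN⟩ : ∃ N, N = (2 ^ δ - 2) * ρ := ⟨_, rfl⟩
  rw [← hN] at hn hn' hNp
  have ha : 1 ≤ k → ¬ Fac (RR δ q ρ f) z (k - 1) := by
    intro hk1 hf
    apply hno
    refine facG_iff.2 ⟨k - 1, z, by omega, ?_, hf⟩
    rw [← hN, hn]
    have : l + 1 + (k - 1) = l + k := by omega
    rw [this]
  have hb : ¬ (N + k * ρ ≤ z) := by
    intro hle
    have h1 := hz.down hδ (by rw [← hN]; exact hle)
    apply hno
    refine facG_iff.2 ⟨k, _, by omega, ?_, h1⟩
    rw [← hN, hn]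
    have e : (l + 1 + k) * N = (l + k) * N + N := by ring
    rw [e]
    omega
  have hkz := hz.mul_le
  by_cases hh : l' + k' ≤ l + k
  · -- `h' ≤ h`
    exfalso
    obtain ⟨m, hm⟩ := Nat.exists_eq_add_of_le hh
    have hz'' : z' = z + m * N := by
      rw [hm, add_mul] at hn
      omega
    have hk2 : k' ≤ k - 1 - m := by omega
    have h1 := hz'.up (k' := k - 1 - m) (by omega) hk2 (by
      have : (k - 1 - m) * ρ ≤ k * ρ := Nat.mul_le_mul_right ρ (by omega)
      omega)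
    apply hno
    refine facG_iff.2 ⟨k - 1 - m, z', by omega, ?_, h1⟩
    rw [← hN, hn']
    have e : l' + k' = l + 1 + (k - 1 - m) := by omega
    rw [e]
  · -- `h' > h`
    obtain ⟨i, hi⟩ := Nat.exists_eq_add_of_lt (Nat.lt_of_not_le hh)
    have hz'' : z = z' + i * N + N := by
      rw [hi] at hn'
      have e : (l + k + i + 1) * N = (l + k) * N + i * N + N := by ring
      rw [e] at hn'
      omega
    have h1 := add_N P hz' i
    rw [← hN] at h1
    set w := z' + i * N with hw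
    -- `w = z - N`
    have hwlt : w < k * ρ := by omega
    have hk0 := h1.mul_le
    have hq0 : k' + i * (δ - 1) ≤ w / ρ := (Nat.le_div_iff_mul_le hρ0).2 hk0
    have h2 := h1.up (k' := w / ρ) (by omega) hq0 (Nat.div_mul_le_self w ρ)
    have hq0k : w / ρ < k := (Nat.div_lt_iff_lt_mul hρ0).2 hwlt
    obtain ⟨A, B, hc, hAB⟩ := h2.conf
    have hcle := hc.le
    have hA : A = w / ρ := by
      apply le_antisymm _ hcle.1
      rw [Nat.le_div_iff_mul_le hρ0]
      omega
    rw [hA] at hAB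
    have hB := hcle.2
    generalize w / ρ = c at *
    rcases Nat.lt_or_ge c 2 with hc2 | hc2
    · have hc01 : c = 0 ∨ c = 1 := by omega
      rcases hc01 with rfl | rfl
      · -- `z = N`
        have hw0 : w = 0 := by omega
        have hzN : z = N := by omega
        have hz0 : z' = 0 := by omega
        have hiN : i * N = 0 := by omega
        have hi0 : i = 0 := by
          rcases Nat.mul_eq_zero.1 hiN with h | h
          · exact h
          · omega
        have hk'0 : k' = 0 := by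
          have h3 := hz'.mul_le
          rw [hz0] at h3
          by_contra hne
          have : 1 * ρ ≤ k' * ρ := Nat.mul_le_mul_right ρ (by omega)
          omega
        have hlow : δ - 1 ≤ k := low0 P (by rw [← hN, ← hzN]; exact hz)
        have hup : k ≤ δ - 1 := by
          by_contra hlt
          apply ha (by omega)
          have h3 := ex0 P
          rw [← hN, ← hzN] at h3
          refine h3.up (by omega) (by omega) ?_
          have : (k - 1) * ρ ≤ k * ρ := Nat.mul_le_mul_right ρ (by omega)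
          omega
        refine ⟨0, Nat.zero_le _, ?_⟩
        rw [P.hf3 0 (Nat.zero_le _) (Nat.zero_le _)]
        omega
      · -- `z = N + ρ + B`
        have hBq : B ≤ q := by omega
        have hwB : w = ρ + B := by omega
        have hzN : z = N + (ρ + B) := by omega
        have hi0 : i = 0 := by
          by_contra hne
          have : 1 * N ≤ i * N := Nat.mul_le_mul_right N (by omega)
          omega
        have hz0 : z' = ρ + B := by
          rw [hi0] at hw
          omega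
        have hk'1 : k' = 1 := by
          have h3 := hz'.mul_le
          rw [hz0] at h3
          have h4 : k' ≤ 1 := by
            by_contra hne
            have : 2 * ρ ≤ k' * ρ := Nat.mul_le_mul_right ρ (by omega)
            omega
          have h5 : k' ≠ 0 := by
            rintro rfl
            have := fac_zero_eq hz'
            omega
          omega
        have hlow : f B ≤ k := low1 P hBq (by rw [← hN, ← hzN]; exact hz)
        have hup : k ≤ f B := by
          by_contra hlt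
          apply ha (by omega)
          have h3 := ex1 P hBq
          rw [← hN, ← hzN] at h3
          refine h3.up (by omega) (by omega) ?_
          have : (k - 1) * ρ ≤ k * ρ := Nat.mul_le_mul_right ρ (by omega)
          omega
        exact ⟨B, hBq, by omega⟩
    · exfalso
      have h3 := up2 P (c := c) (B := B) hc2 hB
      rw [← hN, ← hAB] at h3
      have h4 : w + N = z := by omega
      rw [h4] at h3
      apply ha (by omega)
      refine h3.up (by omega) (by omega) ?_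
      have : (k - 1) * ρ ≤ k * ρ := Nat.mul_le_mul_right ρ (by omega)
      omega

end Pool.Agent.H237R3.Delta
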