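import Pool.Agent.H237R3.DeltaBase

set_option autoImplicit false

namespace Pool.Agent.H237R3.Delta

/-- binary digit sum -/
def pc (n : ℕ) : ℕ := (Nat.digits 2 n).sum

lemma pc_zero : pc 0 = 0 := by simp [pc]

lemma pc_step (n : ℕ) : pc n = n % 2 + pc (n / 2) := by
  unfold pc
  rcases Nat.eq_zero_or_pos n with rfl | h
  · simp
  · rw [Nat.digits_def' (by norm_num) h, List.sum_cons]

lemma pc_one : pc 1 = 1 := by simp [pc]

lemma pc_two_mul (n : ℕ) : pc (2 * n) = pc n := by
  rw [pc_step]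
  have h1 : 2 * n % 2 = 0 := by omega
  have h2 : 2 * n / 2 = n := by omega
  rw [h1, h2, zero_add]

lemma pc_two_mul_add (n : ℕ) : pc (2 * n + 1) = pc n + 1 := by
  rw [pc_step]
  have h1 : (2 * n + 1) % 2 = 1 := by omega
  have h2 : (2 * n + 1) / 2 = n := by omega
  rw [h1, h2, add_comm]

lemma pc_add_one_le (n : ℕ) : pc (n + 1) ≤ pc n + 1 := by
  induction n using Nat.strong_induction_on with
  | _ n ih =>
    rcases Nat.even_or_odd' n with ⟨c, rfl | rfl⟩
    · rw [pc_two_mul_add, pc_two_mul]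
    · have h : 2 * c + 1 + 1 = 2 * (c + 1) := by ring
      rw [h, pc_two_mul, pc_two_mul_add]
      have := ih c (by omega)
      omega

lemma pc_add_le (x y : ℕ) : pc (x + y) ≤ pc x + pc y := by
  induction x using Nat.strong_induction_on generalizing y with
  | _ x ih =>
    rcases Nat.eq_zero_or_pos x with rfl | hx
    · simp [pc_zero]
    rcases Nat.even_or_odd' x with ⟨a, rfl | rfl⟩ <;>
      rcases Nat.even_or_odd' y with ⟨b, rfl | rfl⟩
    · have h : 2 * a + 2 * b = 2 * (a + b) := by ring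
      rw [h, pc_two_mul, pc_two_mul, pc_two_mul]
      exact ih a (by omega) b
    · have h : 2 * a + (2 * b + 1) = 2 * (a + b) + 1 := by ring
      rw [h, pc_two_mul_add, pc_two_mul, pc_two_mul_add]
      have := ih a (by omega) b
      omega
    · have h : 2 * a + 1 + 2 * b = 2 * (a + b) + 1 := by ring
      rw [h, pc_two_mul_add, pc_two_mul, pc_two_mul_add]
      have := ih a (by omega) b
      omega
    · have h : 2 * a + 1 + (2 * b + 1) = 2 * (a + b + 1) := by ring
      rw [h, pc_two_mul, pc_two_mul_add, pc_two_mul_add]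
      have h1 := ih a (by omega) b
      have h2 := pc_add_one_le (a + b)
      omega

lemma pc_pow (j : ℕ) : pc (2 ^ j) = 1 := by
  induction j with
  | zero => simp [pc_one]
  | succ j ih => rw [pow_succ, mul_comm, pc_two_mul, ih]

lemma pc_le_of_lt {a j : ℕ} (h : a < 2 ^ j) : pc a ≤ j := by
  induction j generalizing a with
  | zero =>
    have : a = 0 := by simpa using h
    simp [this, pc_zero]
  | succ j ih =>
    rw [pc_step]
    have h1 : a / 2 < 2 ^ j := by
      rw [pow_succ] at h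
      omega
    have h2 := ih h1
    have h3 : a % 2 < 2 := Nat.mod_lt _ (by norm_num)
    omega

lemma pc_full (j : ℕ) : pc (2 ^ j - 1) = j := by
  induction j with
  | zero => simp [pc_zero]
  | succ j ih =>
    have h1 : 0 < 2 ^ j := Nat.two_pow_pos j
    have h : 2 ^ (j + 1) - 1 = 2 * (2 ^ j - 1) + 1 := by
      rw [pow_succ]
      omega
    rw [h, pc_two_mul_add, ih]

/-- the powers of two below `2 ^ δ` -/
def Pw (δ : ℕ) : Set ℕ := {a | ∃ j, j < δ ∧ a = 2 ^ j}

lemma one_mem_Pw {δ : ℕ} (h : 0 < δ) : 1 ∈ Pw δ := ⟨0, h, by simp⟩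

lemma Fac.pw_le {δ n k : ℕ} (h : Fac (Pw δ) n k) : k ≤ n := by
  refine Fac.ind (motive := fun n k => k ≤ n) (le_refl 0) ?_ h
  rintro n k a - ⟨j, -, rfl⟩ h
  have := Nat.two_pow_pos j
  omega

lemma Fac.pc_le {δ n k : ℕ} (h : Fac (Pw δ) n k) : pc n ≤ k := by
  refine Fac.ind (motive := fun n k => pc n ≤ k) (by simp [pc_zero]) ?_ h
  rintro n k a - ⟨j, -, rfl⟩ h
  have h1 := pc_add_le n (2 ^ j)
  rw [pc_pow] at h1
  omega

/-- all ones -/
lemma fac_ones {δ : ℕ} (h : 0 < δ) (k : ℕ) : Fac (Pw δ) k k := by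
  induction k with
  | zero => exact Fac.zero _
  | succ k ih => exact ih.cons (one_mem_Pw h)

/-- splitting a part -/
lemma Fac.pw_split {δ n k : ℕ} (h : Fac (Pw δ) n k) (hk : k < n) : Fac (Pw δ) n (k + 1) := by
  revert hk
  refine Fac.ind (motive := fun n k => k < n → Fac (Pw δ) n (k + 1)) (by omega) ?_ h
  rintro n k a hf ⟨j, hj, rfl⟩ ih hk
  by_cases hkn : k < n
  · exact (ih hkn).cons ⟨j, hj, rfl⟩
  · have hkn' : k = n := le_antisymm hf.pw_le (by omega)
    rcases Nat.eq_zero_or_pos j with rfl | hj0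
    · simp at hk
      omega
    · obtain ⟨i, rfl⟩ := Nat.exists_eq_add_of_le hj0
      have h1 : 2 ^ (0 + 1 + i) = 2 ^ i + 2 ^ i := by
        rw [pow_add]; ring
      have h1' : 2 ^ (Nat.succ 0 + i) = 2 ^ i + 2 ^ i := h1
      rw [h1', ← add_assoc]
      have hi : (2 ^ i : ℕ) ∈ Pw δ := ⟨i, by omega, rfl⟩
      exact (hf.cons hi).cons hi

/-- a top block of powers of two -/
lemma fac_top {δ : ℕ} (g : ℕ) (hg : g ≤ δ) : Fac (Pw δ) (2 ^ δ - 2 ^ (δ - g)) g := by
  induction g with
  | zero => simpa using Fac.zero _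
  | succ g ih =>
    have h1 := (ih (by omega)).cons (a := 2 ^ (δ - (g + 1))) ⟨δ - (g + 1), by omega, rfl⟩
    have h2 : δ - g = (δ - (g + 1)) + 1 := by omega
    have h3 : 2 ^ (δ - g) ≤ 2 ^ δ := Nat.pow_le_pow_right (by norm_num) (by omega)
    have h4 : 2 ^ (δ - g) = 2 * 2 ^ (δ - (g + 1)) := by rw [h2, pow_succ]; ring
    have h5 : 2 ^ δ - 2 ^ (δ - g) + 2 ^ (δ - (g + 1)) = 2 ^ δ - 2 ^ (δ - (g + 1)) := by omega
    rw [h5] at h1
    exact h1

lemma sum_le_of_nodup {δ : ℕ} {m : Multiset ℕ} (hm : ∀ a ∈ m, a ∈ Pw δ) (hn : m.Nodup) :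
    m.sum ≤ 2 ^ δ - 1 := by
  have h1 : m.sum = ∑ a ∈ m.toFinset, a := by
    rw [Finset.sum_multiset_count]
    apply Finset.sum_congr rfl
    intro a ha
    rw [Multiset.count_eq_one_of_mem hn (Multiset.mem_toFinset.1 ha)]
    simp
  have h2 : m.toFinset ⊆ (Finset.range δ).image (fun j => 2 ^ j) := by
    intro a ha
    obtain ⟨j, hj, rfl⟩ := hm a (Multiset.mem_toFinset.1 ha)
    exact Finset.mem_image.2 ⟨j, Finset.mem_range.2 hj, rfl⟩
  have h3 : ∑ a ∈ (Finset.range δ).image (fun j => 2 ^ j), a = ∑ j ∈ Finset.range δ, 2 ^ j := by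
    rw [Finset.sum_image]
    intro a _ b _ hab
    exact Nat.pow_right_injective (le_refl 2) hab
  have h4 : ∑ j ∈ Finset.range δ, 2 ^ j = 2 ^ δ - 1 := by
    have := Nat.geomSum_eq (m := 2) (le_refl 2) δ
    simpa using this
  rw [h1]
  calc ∑ a ∈ m.toFinset, a ≤ ∑ a ∈ (Finset.range δ).image (fun j => 2 ^ j), a :=
        Finset.sum_le_sum_of_subset h2
    _ = 2 ^ δ - 1 := by rw [h3, h4]

/-- reducing the sum by `2 ^ δ - 2` -/
lemma pw_reduce {δ : ℕ} (hδ : 3 ≤ δ) (k : ℕ) :
    ∀ n, Fac (Pw δ) n k → (2 ^ δ - 2) + k ≤ n → Fac (Pw δ) (n - (2 ^ δ - 2)) k := by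
  induction k using Nat.strong_induction_on with
  | _ k ih =>
    rintro n hf hn
    obtain ⟨m, hm, hs, hc⟩ := hf
    have h8 : 8 ≤ 2 ^ δ := by
      calc 8 = 2 ^ 3 := by norm_num
        _ ≤ 2 ^ δ := Nat.pow_le_pow_right (by norm_num) hδ
    by_cases hnd : m.Nodup
    · -- impossible
      exfalso
      have h1 := sum_le_of_nodup hm hnd
      have hk1 : k ≤ 1 := by omega
      have hk : Multiset.card m = 0 ∨ Multiset.card m = 1 := by omega
      rcases hk with hk | hk
      · rw [Multiset.card_eq_zero] at hk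
        subst hk
        simp at hs
        omega
      · obtain ⟨a, rfl⟩ := Multiset.card_eq_one.1 hk
        obtain ⟨j, hj, rfl⟩ := hm a (by simp)
        simp at hs
        have h2 : 2 ^ j ≤ 2 ^ (δ - 1) := Nat.pow_le_pow_right (by norm_num) (by omega)
        have h3 : 2 ^ δ = 2 * 2 ^ (δ - 1) := by
          conv_lhs => rw [show δ = (δ - 1) + 1 by omega]
          rw [pow_succ]; ring
        omega
    · rw [Multiset.nodup_iff_ne_cons_cons] at hnd
      push Not at hnd
      obtain ⟨a, t, rfl⟩ := hnd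
      obtain ⟨j, hj, rfl⟩ := hm a (by simp)
      have ht : ∀ b ∈ t, b ∈ Pw δ := fun b hb =>
        hm b (Multiset.mem_cons_of_mem (Multiset.mem_cons_of_mem hb))
      simp only [Multiset.sum_cons, Multiset.card_cons] at hs hc
      have hft : Fac (Pw δ) t.sum (Multiset.card t) := ⟨t, ht, rfl, rfl⟩
      by_cases hj1 : j = δ - 1
      · -- two top parts
        have h3 : 2 ^ δ = 2 * 2 ^ (δ - 1) := by
          conv_lhs => rw [show δ = (δ - 1) + 1 by omega]
          rw [pow_succ]; ring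
        have h1 := (hft.cons (one_mem_Pw (δ := δ) (by omega))).cons
          (one_mem_Pw (δ := δ) (by omega))
        have h4 : n - (2 ^ δ - 2) = t.sum + 1 + 1 := by
          subst hj1
          omega
        rw [h4, ← hc]
        exact h1
      · -- merge two equal parts
        have h1 := hft.cons (a := 2 ^ (j + 1)) ⟨j + 1, by omega, rfl⟩
        have h4 : t.sum + 2 ^ (j + 1) = n := by rw [pow_succ]; omega
        rw [h4] at h1
        have h2 := ih (Multiset.card t + 1) (by omega) n h1 (by omega)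
        have h5 := h2.pw_split (by omega)
        rw [← hc]
        exact h5

end Pool.Agent.H237R3.Delta
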