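import Pool.Agent.H197R3.SF.Stmts

set_option autoImplicit false

/-! Project H197-SF, task IN. -/

namespace Pool.Agent.H237R3.SF

open MeasureTheory Filter Topology Set
open Pool.Agent.H197R3.SF

theorem taskIn : TaskIn := by
  intro σ fa c τ F hσ hfa hc hF
  let e : (Σ t : ℝ, {k : ℕ // τ k = t}) ≃ ℕ := Equiv.sigmaFiberEquiv τ
  have hb : Summable (fun p => ‖c (e p)‖ * Real.exp (σ * |τ (e p)|)) :=
    (e.summable_iff (f := fun k : ℕ => ‖c k‖ * Real.exp (σ * |τ k|))).2 hc
  have hb1 : ∀ t : ℝ, Summable (fun k : {k : ℕ // τ k = t} =>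
      ‖c k‖ * Real.exp (σ * |τ k|)) := fun t => hb.sigma_factor t
  have hb2 : Summable (fun t : ℝ => ∑' k : {k : ℕ // τ k = t},
      ‖c k‖ * Real.exp (σ * |τ k|)) := hb.sigma
  have hval : ∀ (t : ℝ), (fun k : {k : ℕ // τ k = t} => ‖c k‖ * Real.exp (σ * |τ k|)) =
      fun k : {k : ℕ // τ k = t} => ‖c k‖ * Real.exp (σ * |t|) := by
    intro t
    funext k
    rw [k.2]
  have hb3 : ∀ t : ℝ, Summable (fun k : {k : ℕ // τ k = t} => ‖c k‖) := by
    intro t
    have h1 := hb1 t
    rw [hval t] at h1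
    exact (summable_mul_right_iff (Real.exp_pos _).ne').1 h1
  refine ⟨fa, fun t => ∑' k : {k : ℕ // τ k = t}, c k, ⟨hfa, ?_, by simp, by simp, ?_⟩⟩
  · refine Summable.of_nonneg_of_le (fun t => by positivity) (fun t => ?_) hb2
    rw [hval t, tsum_mul_right]
    exact mul_le_mul_of_nonneg_right (norm_tsum_le_tsum_norm (hb3 t)) (Real.exp_pos _).le
  · intro ω
    have hch : ∀ t : ℝ, ‖ch ω t‖ = 1 := by
      intro t
      unfold ch
      have : -((ω : ℂ) * (t : ℂ) * Complex.I) = ((-(ω * t) : ℝ) : ℂ) * Complex.I := by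
        push_cast
        ring
      rw [this, Complex.norm_exp_ofReal_mul_I]
    have hg : Summable (fun k : ℕ => c k * ch ω (τ k)) := by
      refine Summable.of_norm_bounded hc (fun k => ?_)
      rw [norm_mul, hch, mul_one]
      have h1 : 1 ≤ Real.exp (σ * |τ k|) := Real.one_le_exp (by positivity)
      exact le_mul_of_one_le_right (norm_nonneg _) h1
    have hge : Summable (fun p => c (e p) * ch ω (τ (e p))) :=
      (e.summable_iff (f := fun k : ℕ => c k * ch ω (τ k))).2 hg
    rw [hF ω]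
    have h1 : ∑' k : ℕ, c k * ch ω (τ k) =
        ∑' t : ℝ, (∑' k : {k : ℕ // τ k = t}, c k) * ch ω t := by
      rw [← e.tsum_eq (fun k : ℕ => c k * ch ω (τ k)), hge.tsum_sigma]
      refine tsum_congr fun t => ?_
      rw [← tsum_mul_right]
      refine tsum_congr fun k => ?_
      show c k * ch ω (τ k) = c k * ch ω t
      rw [k.2]
    rw [← h1]
    rfl

end Pool.Agent.H237R3.SF
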